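import Pool.Agent.H985Z.Rich.LiftA

/-! The lifting step for right handed reductions. -/

set_option autoImplicit false
set_option linter.unusedSectionVars false

namespace Pool.Agent.H259Z.Rich

variable {r : ℕ} {G Q : Type} [Group G] [Group Q] (S : MS r G Q)

/-- A chosen coefficient of `der s` with respect to `der t`. -/
noncomputable def cf (t s : G) : ZG Q := by
  classical
  exact if h : ∃ ρ : ZG Q, S.der s = ρ • S.der t then h.choose else 0

theorem cf_eq [UniqueProds Q] {t s : G} (hs : s ≠ 1) {ρ : ZG Q} (h : S.der s = ρ • S.der t) :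
    cf S t s = ρ ∧ ρ ≠ 0 := by
  have hd : S.der s ≠ 0 := fun e => hs (S.inj _ e)
  have ht : S.der t ≠ 0 := fun e => hd (by rw [h, e, smul_zero])
  have hex : ∃ ρ : ZG Q, S.der s = ρ • S.der t := ⟨ρ, h⟩
  refine ⟨?_, fun e => hd (by rw [h, e, zero_smul])⟩
  unfold cf
  rw [dif_pos hex]
  have h1 : (hex.choose - ρ) • S.der t = 0 := by rw [sub_smul, ← hex.choose_spec, ← h, sub_self]
  exact sub_eq_zero.1 ((MS.smul_eq_zero' h1).resolve_right ht)

theorem closure_le_ker {δ : G →* Multiplicative ℤ} {ι : Type} {γ : ι → G} (h : ∀ a, δ (γ a) = 1) :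
    Subgroup.closure (Set.range γ) ≤ δ.ker := by
  rw [Subgroup.closure_le]
  rintro _ ⟨a, rfl⟩
  exact h a

theorem red_zpowers (hG : TF G) (δ : G →* Multiplicative ℤ) {K : ℕ} (hK : 1 ≤ K) (t : G)
    (ht : δ t = 1) : RedR δ K 1 (Subgroup.zpowers t : Set G) := by
  classical
  intro T hT Λ hΛ
  let ex : G → ℤ := fun s => if h : ∃ i : ℤ, t ^ i = s then h.choose else 0
  let N : ℕ := T.sup (fun s => (ex s).natAbs) + 1
  refine ⟨Subgroup.closure (Set.range fun _ : Unit => t ^ N),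
    Subgroup.closure (Set.range fun _ : Unit => t), genLe_fintype (by simpa using hK) _,
    genLe_fintype (by simpa using hK) _, closure_le_ker fun _ => by rw [map_pow, ht, one_pow],
    closure_le_ker fun _ => ht, fun s hs hsH => ?_, {y | ∃ j : ℕ, y = t ^ j}, ?_,
    ⟨t, ht, fun q hq => hq⟩, fun q hq => ?_⟩
  · rw [Set.range_const, ← Subgroup.zpowers_eq_closure] at hsH
    obtain ⟨a, ha⟩ := Subgroup.mem_zpowers_iff.1 hsH
    have hs1 : s ≠ 1 := fun e => hT (e ▸ hs)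
    have ht1 : t ≠ 1 := fun e => hs1 (by rw [← ha, e, one_pow, one_zpow])
    rw [← zpow_natCast, ← zpow_mul] at ha
    have hex : ∃ i : ℤ, t ^ i = s := ⟨_, ha⟩
    have h1 : ex s = N * a := by
      simp only [ex]
      rw [dif_pos hex]
      exact hG.zpow_inj ht1 (hex.choose_spec.trans ha.symm)
    have h2 : (ex s).natAbs ≤ T.sup (fun s => (ex s).natAbs) :=
      Finset.le_sup (f := fun s => (ex s).natAbs) hs
    have ha0 : a ≠ 0 := fun e => hs1 (by rw [← ha, e, mul_zero, zpow_zero])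
    have h3 : N ≤ (ex s).natAbs := by
      rw [h1, Int.natAbs_mul, Int.natAbs_natCast]
      exact Nat.le_mul_of_pos_right _ (Int.natAbs_pos.2 ha0)
    simp only [N] at h3
    omega
  · rintro _ ⟨j, rfl⟩
    exact Subgroup.pow_mem _ (Subgroup.subset_closure (Set.mem_range_self ())) _
  · obtain ⟨i, rfl⟩ := Subgroup.mem_zpowers_iff.1 (hΛ q hq)
    have hN : (0 : ℤ) < N := by
      simp only [N]
      omega
    refine ⟨t ^ (i % N).toNat, ⟨_, rfl⟩, ?_⟩
    have h1 : (t ^ (i % N).toNat)⁻¹ * t ^ i = (t ^ N) ^ (i / N) := by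
      rw [← zpow_natCast, Int.toNat_of_nonneg (Int.emod_nonneg _ hN.ne'), ← zpow_neg, ← zpow_add,
        ← zpow_natCast, ← zpow_mul]
      congr 1
      have := Int.mul_ediv_add_emod i N
      omega
    rw [h1]
    exact Subgroup.zpow_mem _ (Subgroup.subset_closure (Set.mem_range_self ())) _

theorem lift_zero [UniqueProds Q] (hQ : TF Q) (δ : Q →* Multiplicative ℤ) (z : Q)
    (hz : δ z = Multiplicative.ofAdd 1) (c0 : G) (hc0 : S.pr c0 = 1) (hc1 : c0 ≠ 1) (t : G)
    (ht : S.pr t = 1) {K : ℕ} (hK : 2 ≤ K) (Y : Set Q) (g : Q) (hg : δ g = 1)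
    (hY : ∀ q ∈ Y, ∃ j : ℕ, q = g ^ j) : RedR (δ.comp S.pr) K 2 (spanT S Y t) := by
  classical
  intro T hT Λ hΛ
  obtain ⟨gg, hgg⟩ := S.surj g
  let m : ℕ := T.sup (fun s => (nrm (cf S t s)).natAbs) + 2
  have hn1 : S.pr (gg * t * gg⁻¹ * (t ^ m)⁻¹) = 1 := by
    simp [ht]
  have hn : S.der (gg * t * gg⁻¹ * (t ^ m)⁻¹) = (oo g - (m : ZG Q)) • S.der t := by
    rw [S.der_mul_ker (by simp [ht]), S.der_conj _ ht, S.der_inv_ker (by simp [ht]),
      S.der_pow_ker ht, hgg, sub_smul, Nat.cast_smul_eq_nsmul, sub_eq_add_neg]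
  obtain ⟨c, hc, hfar⟩ := far S δ z hz c0 hc0 hc1 t (fun _ : Unit => gg) (fun _ => by rw [hgg, hg])
    (fun _ : Unit => gg * t * gg⁻¹ * (t ^ m)⁻¹) (fun _ => oo g - (m : ZG Q))
    (fun _ => (SuppIn.oo (by rw [hg]; rfl)).sub (SuppIn.nat (P := fun x => x = 0) rfl m)) (fun _ => hn1) (fun _ => hn) T
  set H := Subgroup.closure (Set.range (Sum.elim (fun a : Unit => c a * gg)
    (fun _ : Unit => gg * t * gg⁻¹ * (t ^ m)⁻¹))) with hH
  have hgH : g ∈ H.map S.pr :=
    ⟨c () * gg, Subgroup.subset_closure ⟨Sum.inl (), rfl⟩, by rw [map_mul, hc, one_mul, hgg]⟩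
  have hnH : (oo g - (m : ZG Q)) • S.der t ∈ NH S H := by
    rw [← hn]
    exact mem_NH S (Subgroup.subset_closure ⟨Sum.inr (), rfl⟩) hn1
  have hpow : ∀ j : ℕ, (oo (g ^ j) - ((m ^ j : ℕ) : ZG Q)) • S.der t ∈ NH S H := by
    intro j
    induction j with
    | zero => simp
    | succ j ih =>
      have e : (oo (g ^ (j + 1)) - ((m ^ (j + 1) : ℕ) : ZG Q)) • S.der t =
          oo g • ((oo (g ^ j) - ((m ^ j : ℕ) : ZG Q)) • S.der t) +
            (m ^ j) • ((oo g - (m : ZG Q)) • S.der t) := by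
        rw [smul_smul, ← Nat.cast_smul_eq_nsmul (ZG Q), smul_smul, ← add_smul]
        congr 1
        rw [pow_succ' g, map_mul, pow_succ, Nat.cast_mul, mul_sub, mul_sub,
          (Nat.cast_commute (m ^ j) (oo g)).eq]
        abel
      rw [e]
      exact (NH S H).add_mem (NH_smul S hgH ih) ((NH S H).nsmul_mem hnH _)
  refine ⟨H, Subgroup.closure (Set.range fun _ : Unit => t), genLe_fintype (by simpa using hK) _,
    genLe_fintype (by simp; omega) _, closure_le_ker ?_,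
    closure_le_ker fun _ => by simp [ht], fun s hs hsH => ?_, (Subgroup.zpowers t : Set G), ?_,
    red_zpowers (S.tf hQ) _ (by omega) t (by simp [ht]), fun q hq => ?_⟩
  · rintro (a | a)
    · simp [hc, hgg, hg]
    · simp only [Sum.elim_inr, MonoidHom.comp_apply]
      rw [hn1, map_one]
  · obtain ⟨ρ, hρ⟩ := hfar s hs hsH
    rw [Fintype.sum_unique] at hρ
    obtain ⟨h1, h2⟩ := cf_eq S (fun e => hT (e ▸ hs)) hρ
    have h3 := right_mul_bound g m _ h2
    have h4 : (nrm (cf S t s)).natAbs ≤ T.sup (fun s => (nrm (cf S t s)).natAbs) :=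
      Finset.le_sup (f := fun s => (nrm (cf S t s)).natAbs) hs
    rw [← h1] at h3
    simp only [m] at h3
    omega
  · intro y hy
    rw [Set.range_const, ← Subgroup.zpowers_eq_closure]
    exact hy
  · obtain ⟨hq1, ρ, hρ, hq2⟩ := hΛ q hq
    let jj : Q → ℕ := fun x => if h : ∃ j : ℕ, x = g ^ j then h.choose else 0
    have hjj : ∀ x ∈ ρ.coeff.support, x = g ^ jj x := fun x hx => by
      have hex := hY x (hρ x hx)
      simp only [jj]
      rw [dif_pos hex]
      exact hex.choose_spec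
    let i : ℤ := ∑ x ∈ ρ.coeff.support, ρ.coeff x * ((m ^ jj x : ℕ) : ℤ)
    refine ⟨t ^ i, Subgroup.zpow_mem _ (Subgroup.mem_zpowers t) _,
      mem_of_NH S (by simp [ht]) ?_⟩
    have h1 : S.der (t ^ i) =
        (∑ x ∈ ρ.coeff.support, ρ.coeff x • ((m ^ jj x : ℕ) : ZG Q)) • S.der t := by
      rw [S.der_zpow_ker ht, Finset.sum_smul, Finset.sum_smul]
      refine Finset.sum_congr rfl fun x _ => ?_
      rw [smul_assoc, mul_smul, Nat.cast_smul_eq_nsmul, Nat.cast_smul_eq_nsmul]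
    rw [hq2, h1]
    refine NH_diff S (fun x => ((m ^ jj x : ℕ) : ZG Q)) fun x hx => ?_
    have := hpow (jj x)
    rwa [← hjj x hx] at this

theorem span_le {U : Subgroup G} {t : G} (ht : S.pr t = 1) (htU : t ∈ U) {ρ : ZG Q}
    (hρ : ∀ x ∈ ρ.coeff.support, x ∈ U.map S.pr) : ρ • S.der t ∈ NH S U :=
  NH_span S fun x hx => NH_smul S (hρ x hx) (mem_NH S htU ht)

theorem lift_succ [UniqueProds Q] (δ : Q →* Multiplicative ℤ) (z : Q)
    (hz : δ z = Multiplicative.ofAdd 1) (c0 : G) (hc0 : S.pr c0 = 1) (hc1 : c0 ≠ 1) (t : G)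
    (ht : S.pr t = 1) (k n : ℕ)
    (ih : ∀ Y : Set Q, RedR δ k n Y → RedR (δ.comp S.pr) (3 * k + 3) (n + 2) (spanT S Y t))
    (Y : Set Q) (hY : RedR δ k (n + 1) Y) :
    RedR (δ.comp S.pr) (3 * k + 3) (n + 1 + 2) (spanT S Y t) := by
  classical
  intro T hT Λ hΛ
  have hΛ' : ∀ q : Λ, ∃ ρ : ZG Q, (∀ x ∈ ρ.coeff.support, x ∈ Y) ∧ S.der q = ρ • S.der t :=
    fun q => (hΛ q q.2).2
  choose ρ hρY hρ using hΛ'
  let TQ : Finset Q := T.biUnion fun s =>
    ((cf S t s).coeff.support.offDiag).image fun p => p.1⁻¹ * p.2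
  have hTQ : (1 : Q) ∉ TQ := by
    intro h
    obtain ⟨s, -, hs⟩ := Finset.mem_biUnion.1 h
    obtain ⟨p, hp, e⟩ := Finset.mem_image.1 hs
    exact (Finset.mem_offDiag.1 hp).2.2 (inv_mul_eq_one.1 e)
  obtain ⟨H', U', ⟨h', rfl⟩, ⟨u', rfl⟩, hH', hU', havoid, Y', hY'U, hY', hcov⟩ :=
    hY TQ hTQ (Finset.univ.biUnion fun q : Λ => (ρ q).coeff.support) (fun x hx => by
      obtain ⟨q, -, hq⟩ := Finset.mem_biUnion.1 hx
      exact hρY q x hq)
  choose hh hhh using fun i => S.surj (h' i)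
  choose uu huu using fun i => S.surj (u' i)
  have hδh : ∀ i, δ (h' i) = 1 := fun i => hH' (Subgroup.subset_closure ⟨i, rfl⟩)
  have hδu : ∀ i, δ (u' i) = 1 := fun i => hU' (Subgroup.subset_closure ⟨i, rfl⟩)
  have hn1 : ∀ i, S.pr (hh i * t * (hh i)⁻¹ * t⁻¹) = 1 := fun i => by simp [ht]
  have hn : ∀ i, S.der (hh i * t * (hh i)⁻¹ * t⁻¹) = (oo (h' i) - 1) • S.der t := fun i => by
    rw [S.der_mul_ker (by simp [ht]), S.der_conj _ ht, S.der_inv_ker ht, hhh, sub_smul, one_smul,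
      sub_eq_add_neg]
  obtain ⟨c, hc, hfar⟩ := far S δ z hz c0 hc0 hc1 t (Sum.elim hh uu) (by
      rintro (i | i)
      · simp only [Sum.elim_inl]
        rw [hhh, hδh]
      · simp only [Sum.elim_inr]
        rw [huu, hδu])
    (fun i => hh i * t * (hh i)⁻¹ * t⁻¹) (fun i => oo (h' i) - 1)
    (fun i => (SuppIn.oo (by rw [hδh]; rfl)).sub (SuppIn.one rfl)) hn1 hn T
  set H := Subgroup.closure (Set.range (Sum.elim (fun a => c a * Sum.elim hh uu a)
    (fun i => hh i * t * (hh i)⁻¹ * t⁻¹))) with hH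
  set U := Subgroup.closure (Set.range (Sum.elim uu (fun _ : Unit => t))) with hU
  have hH'H : Subgroup.closure (Set.range h') ≤ H.map S.pr := by
    rw [Subgroup.closure_le]
    rintro _ ⟨i, rfl⟩
    exact ⟨c (Sum.inl i) * hh i, Subgroup.subset_closure ⟨Sum.inl (Sum.inl i), rfl⟩,
      by rw [map_mul, hc, one_mul, hhh]⟩
  have hU'H : Subgroup.closure (Set.range u') ≤ H.map S.pr := by
    rw [Subgroup.closure_le]
    rintro _ ⟨i, rfl⟩
    exact ⟨c (Sum.inr i) * uu i, Subgroup.subset_closure ⟨Sum.inl (Sum.inr i), rfl⟩,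
      by rw [map_mul, hc, one_mul, huu]⟩
  have hU'U : Subgroup.closure (Set.range u') ≤ U.map S.pr := by
    rw [Subgroup.closure_le]
    rintro _ ⟨i, rfl⟩
    exact ⟨uu i, Subgroup.subset_closure ⟨Sum.inl i, rfl⟩, huu i⟩
  have htU : t ∈ U := Subgroup.subset_closure ⟨Sum.inr (), rfl⟩
  have hsub : ∀ x ∈ Subgroup.closure (Set.range h'), (oo x - 1) • S.der t ∈ NH S H := by
    intro x hx
    induction hx using Subgroup.closure_induction with
    | mem y hy =>
      obtain ⟨i, rfl⟩ := hy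
      rw [← hn]
      exact mem_NH S (Subgroup.subset_closure ⟨Sum.inr i, rfl⟩) (hn1 i)
    | one => simp
    | mul a b ha _ iha ihb =>
      have e : (oo (a * b) - 1) • S.der t =
          oo a • ((oo b - 1) • S.der t) + (oo a - 1) • S.der t := by
        rw [smul_smul, ← add_smul, map_mul]
        congr 1
        noncomm_ring
      rw [e]
      exact (NH S H).add_mem (NH_smul S (hH'H ha) ihb) iha
    | inv a ha iha =>
      have e : (oo a⁻¹ - 1) • S.der t = -(oo a⁻¹ • ((oo a - 1) • S.der t)) := by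
        rw [smul_smul, ← neg_smul, mul_sub, oo_inv_mul, mul_one, neg_sub]
      rw [e]
      exact (NH S H).neg_mem (NH_smul S (hH'H (Subgroup.inv_mem _ ha)) iha)
  refine ⟨H, U, genLe_fintype (by simp; omega) _, genLe_fintype (by simp; omega) _,
    closure_le_ker ?_, closure_le_ker ?_, fun s hs hsH => ?_, spanT S Y' t, ?_, ih Y' hY',
    fun q hq => ?_⟩
  · rintro ((i | i) | i)
    · simp [hc, hhh, hδh]
    · simp [hc, huu, hδu]
    · simp only [Sum.elim_inr, MonoidHom.comp_apply]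
      rw [hn1, map_one]
  · rintro (i | i)
    · simp [huu, hδu]
    · simp [ht]
  · obtain ⟨σ, hσ⟩ := hfar s hs hsH
    obtain ⟨h1, h2⟩ := cf_eq S (fun e => hT (e ▸ hs)) hσ
    rw [← h1] at h2
    obtain ⟨s0, hs0⟩ := Finsupp.support_nonempty_iff.2 (mt MonoidAlgebra.coeff_eq_zero.1 h2)
    let χ : Q → ℤ := fun q => if s0⁻¹ * q ∈ Subgroup.closure (Set.range h') then 1 else 0
    have h3 : E χ (cf S t s) = 0 := by
      rw [h1, map_sum]
      refine Finset.sum_eq_zero fun i _ => E_right (fun q => ?_) _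
      simp only [χ]
      congr 1
      rw [← mul_assoc]
      exact propext (Subgroup.mul_mem_cancel_right _ (Subgroup.subset_closure ⟨i, rfl⟩))
    rw [E_coeff s0 (fun q hq hne => by
      simp only [χ]
      rw [if_neg]
      exact havoid _ (Finset.mem_biUnion.2 ⟨s, hs, Finset.mem_image.2
        ⟨(s0, q), Finset.mem_offDiag.2 ⟨hs0, hq, hne.symm⟩, rfl⟩⟩))] at h3
    simp only [χ, inv_mul_cancel, Subgroup.one_mem, if_true, smul_eq_mul, mul_one] at h3
    exact Finsupp.mem_support_iff.1 hs0 h3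
  · rintro a ⟨ha1, σ, hσ, ha2⟩
    obtain ⟨b, hb, -, e⟩ := span_le S ht htU fun x hx => hU'U (hY'U x (hσ x hx))
    rw [S.der_inj (ha2.trans e.symm)]
    exact hb
  · have hcov' : ∀ x : Q, ∃ y : Q, x ∈ (ρ ⟨q, hq⟩).coeff.support →
        y ∈ Y' ∧ y⁻¹ * x ∈ Subgroup.closure (Set.range h') := fun x => by
      by_cases hx : x ∈ (ρ ⟨q, hq⟩).coeff.support
      · obtain ⟨y, hy, hy2⟩ := hcov x (Finset.mem_biUnion.2 ⟨⟨q, hq⟩, Finset.mem_univ _, hx⟩)
        exact ⟨y, fun _ => ⟨hy, hy2⟩⟩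
      · exact ⟨1, fun h => (hx h).elim⟩
    choose yy hyy using hcov'
    set σ : ZG Q := ∑ x ∈ (ρ ⟨q, hq⟩).coeff.support, (ρ ⟨q, hq⟩).coeff x • oo (yy x) with hσ
    have hσY : ∀ x ∈ σ.coeff.support, x ∈ Y' := by
      intro x hx
      rw [hσ, MonoidAlgebra.coeff_sum] at hx
      obtain ⟨a, ha, hxa⟩ := Finset.mem_biUnion.1 (Finsupp.support_finsetSum hx)
      rw [MonoidAlgebra.coeff_smul, oo_apply, MonoidAlgebra.coeff_single] at hxa
      have := Finsupp.support_single_subset (Finsupp.support_smul hxa)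
      rw [Finset.mem_singleton] at this
      rw [this]
      exact (hyy a ha).1
    obtain ⟨b, -, hb1, e⟩ := span_le S ht htU fun x hx => hU'U (hY'U x (hσY x hx))
    refine ⟨b, ⟨hb1, σ, hσY, e⟩, mem_of_NH S hb1 ?_⟩
    rw [e, show S.der q = _ from hρ ⟨q, hq⟩]
    refine NH_diff S (fun x => oo (yy x)) fun x hx => ?_
    have e2 : (oo x - oo (yy x)) • S.der t =
        oo (yy x) • ((oo ((yy x)⁻¹ * x) - 1) • S.der t) := by
      rw [smul_smul, mul_sub, ← map_mul, mul_inv_cancel_left, mul_one]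
    rw [e2]
    exact NH_smul S (hU'H (hY'U _ (hyy x hx).1)) (hsub _ (hyy x hx).2)

theorem lift : LiftStmt := by
  intro r G Q _ _ _ S hQ δ z hz c0 hc0 hc1 t ht k n
  induction n with
  | zero =>
    rintro Y ⟨g, hg, hY⟩
    exact lift_zero S hQ δ z hz c0 hc0 hc1 t ht (by omega) Y g hg hY
  | succ n ih => exact lift_succ S δ z hz c0 hc0 hc1 t ht k n ih

end Pool.Agent.H259Z.Rich

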