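import Pool.Agent.H259Z.Rich.RedDefs

/-! Auxiliary lemmas for the lifting step: degrees of supports, the far lemma, the module of a
subgroup. -/

set_option autoImplicit false
set_option linter.unusedSectionVars false

namespace Pool.Agent.H259Z.Rich

section Gen

variable {Q : Type} [Group Q]

theorem genLe_mono {k k' : ℕ} (hk : k ≤ k') {H : Subgroup Q} (h : GenLe k H) : GenLe k' H := by
  obtain ⟨g, rfl⟩ := h
  refine ⟨fun i => if hi : (i : ℕ) < k then g ⟨i, hi⟩ else 1, le_antisymm ?_ ?_⟩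
  · rw [Subgroup.closure_le]
    rintro _ ⟨i, rfl⟩
    by_cases hi : (i : ℕ) < k
    · simp only [hi, dif_pos]
      exact Subgroup.subset_closure ⟨_, rfl⟩
    · simp only [hi, dif_neg, not_false_eq_true]
      exact (Subgroup.closure _).one_mem
  · apply Subgroup.closure_mono
    rintro _ ⟨i, rfl⟩
    exact ⟨⟨i, lt_of_lt_of_le i.2 hk⟩, by simp⟩

theorem genLe_fintype {ι : Type} [Fintype ι] {k : ℕ} (hk : Fintype.card ι ≤ k) (g : ι → Q) :
    GenLe k (Subgroup.closure (Set.range g)) := by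
  refine genLe_mono hk ⟨g ∘ (Fintype.equivFin ι).symm, ?_⟩
  rw [Set.range_comp, (Fintype.equivFin ι).symm.surjective.range_eq, Set.image_univ]

/-- All elements of the support have a degree satisfying `P`. -/
def SuppIn (δ : Q →* Multiplicative ℤ) (P : ℤ → Prop) (f : ZG Q) : Prop :=
  ∀ q ∈ f.coeff.support, P (δ q).toAdd

variable {δ : Q →* Multiplicative ℤ}

theorem SuppIn.zero (P : ℤ → Prop) : SuppIn δ P 0 := by
  intro q hq
  simp at hq

theorem SuppIn.mono {P P' : ℤ → Prop} {f : ZG Q} (h : SuppIn δ P f) (hP : ∀ a, P a → P' a) :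
    SuppIn δ P' f := fun q hq => hP _ (h q hq)

theorem SuppIn.add {P : ℤ → Prop} {f g : ZG Q} (hf : SuppIn δ P f) (hg : SuppIn δ P g) :
    SuppIn δ P (f + g) := by
  classical
  intro q hq
  rw [MonoidAlgebra.coeff_add] at hq
  rcases Finset.mem_union.1 (Finsupp.support_add hq) with h | h
  · exact hf q h
  · exact hg q h

theorem SuppIn.neg {P : ℤ → Prop} {f : ZG Q} (hf : SuppIn δ P f) : SuppIn δ P (-f) := by
  intro q hq
  rw [MonoidAlgebra.coeff_neg, Finsupp.support_neg] at hq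
  exact hf q hq

theorem SuppIn.sub {P : ℤ → Prop} {f g : ZG Q} (hf : SuppIn δ P f) (hg : SuppIn δ P g) :
    SuppIn δ P (f - g) := by
  rw [sub_eq_add_neg]
  exact hf.add hg.neg

theorem SuppIn.sum {P : ℤ → Prop} {ι : Type} (s : Finset ι) {f : ι → ZG Q}
    (hf : ∀ i ∈ s, SuppIn δ P (f i)) : SuppIn δ P (∑ i ∈ s, f i) := by
  classical
  induction s using Finset.induction_on with
  | empty => simpa using SuppIn.zero P
  | insert a s ha ih =>
    rw [Finset.sum_insert ha]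
    exact (hf a (Finset.mem_insert_self _ _)).add
      (ih fun i hi => hf i (Finset.mem_insert_of_mem hi))

theorem SuppIn.mul {P P' P'' : ℤ → Prop} {f g : ZG Q} (hf : SuppIn δ P f) (hg : SuppIn δ P' g)
    (h : ∀ a b, P a → P' b → P'' (a + b)) : SuppIn δ P'' (f * g) := by
  classical
  intro q hq
  obtain ⟨a, ha, b, hb, rfl⟩ := Finset.mem_mul.1 (MonoidAlgebra.support_coeff_mul_subset f g hq)
  rw [map_mul, toAdd_mul]
  exact h _ _ (hf a ha) (hg b hb)

theorem SuppIn.oo {P : ℤ → Prop} {q : Q} (h : P (δ q).toAdd) : SuppIn δ P (oo q) := by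
  intro q' hq'
  rw [oo_apply, MonoidAlgebra.coeff_single] at hq'
  have := Finsupp.support_single_subset hq'
  rw [Finset.mem_singleton] at this
  rw [this]
  exact h

theorem SuppIn.one {P : ℤ → Prop} (h : P 0) : SuppIn δ P (1 : ZG Q) := by
  rw [← map_one (Rich.oo (Q := Q))]
  exact SuppIn.oo (by simpa using h)

theorem SuppIn.nat {P : ℤ → Prop} (h : P 0) (m : ℕ) : SuppIn δ P (m : ZG Q) := by
  induction m with
  | zero => simpa using SuppIn.zero P
  | succ m ih =>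
    rw [Nat.cast_succ]
    exact ih.add (SuppIn.one h)

theorem SuppIn.eq_zero {P P' : ℤ → Prop} {f : ZG Q} (hf : SuppIn δ P f) (hf' : SuppIn δ P' f)
    (h : ∀ a, P a → P' a → False) : f = 0 := by
  by_contra hne
  obtain ⟨q, hq⟩ := Finsupp.support_nonempty_iff.2 (mt MonoidAlgebra.coeff_eq_zero.1 hne)
  exact h _ (hf q hq) (hf' q hq)

theorem exists_bound (δ : Q →* Multiplicative ℤ) {ι : Type} (s : Finset ι) (f : ι → ZG Q) :
    ∃ B : ℕ, ∀ i ∈ s, SuppIn δ (fun a => -(B : ℤ) ≤ a ∧ a ≤ B) (f i) := by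
  classical
  refine ⟨(s.biUnion fun i => (f i).coeff.support).sup fun q => (δ q).toAdd.natAbs,
    fun i hi q hq => ?_⟩
  have h1 : (δ q).toAdd.natAbs ≤
      (s.biUnion fun i => (f i).coeff.support).sup fun q => (δ q).toAdd.natAbs :=
    Finset.le_sup (f := fun q => (δ q).toAdd.natAbs) (Finset.mem_biUnion.2 ⟨i, hi, hq⟩)
  constructor <;> omega

theorem homog_zero {ι : Type} [Fintype ι] (f : ι → ZG Q) (d : ι → ℤ) (hd : Function.Injective d)
    (hf : ∀ i, SuppIn δ (fun a => a = d i) (f i)) (h : ∑ i, f i = 0) (i : ι) : f i = 0 := by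
  classical
  have h1 : f i = -∑ j ∈ Finset.univ.erase i, f j := by
    rw [← Finset.add_sum_erase _ _ (Finset.mem_univ i)] at h
    exact eq_neg_of_add_eq_zero_left h
  refine SuppIn.eq_zero (hf i) (P' := fun a => a ≠ d i) ?_ (fun a h1 h2 => h2 h1)
  rw [h1]
  refine (SuppIn.sum _ fun j hj => (hf j).mono fun a ha => ?_).neg
  rw [ha]
  exact fun e => (Finset.mem_erase.1 hj).1 (hd e)

theorem eq_sum_oo (f : ZG Q) : f = ∑ x ∈ f.coeff.support, f.coeff x • oo x := by
  conv_lhs => rw [← f.sum_coeff_single]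
  rw [Finsupp.sum]
  refine Finset.sum_congr rfl fun x _ => ?_
  simp [oo_apply]

end Gen

variable {r : ℕ} {G Q : Type} [Group G] [Group Q] (S : MS r G Q)

theorem inH (δ : Q →* Multiplicative ℤ) {ι : Type} [Fintype ι] (γ : ι → G)
    (hγ : ∀ a, δ (S.pr (γ a)) = 1) {g : G} (hg : g ∈ Subgroup.closure (Set.range γ)) :
    δ (S.pr g) = 1 ∧ ∃ ρ : ι → ZG Q, (∀ a, SuppIn δ (fun x => x = 0) (ρ a)) ∧
      S.der g = ∑ a, ρ a • S.der (γ a) := by
  classical
  induction hg using Subgroup.closure_induction with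
  | mem y hy =>
    obtain ⟨a, rfl⟩ := hy
    refine ⟨hγ a, Pi.single a 1, fun b => ?_, ?_⟩
    · by_cases hb : b = a
      · subst hb
        rw [Pi.single_eq_same]
        exact SuppIn.one rfl
      · rw [Pi.single_eq_of_ne hb]
        exact SuppIn.zero _
    · rw [Finset.sum_eq_single a]
      · rw [Pi.single_eq_same, one_smul]
      · intro b _ hb
        rw [Pi.single_eq_of_ne hb, zero_smul]
      · intro h
        exact (h (Finset.mem_univ _)).elim
  | one => exact ⟨by simp, 0, fun _ => SuppIn.zero _, by simp [S.der_one]⟩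
  | mul a b _ _ ha hb =>
    obtain ⟨ha1, ρ, hρ, ha2⟩ := ha
    obtain ⟨hb1, σ, hσ, hb2⟩ := hb
    refine ⟨by rw [map_mul, map_mul, ha1, hb1, mul_one],
      fun i => ρ i + oo (S.pr a) * σ i, fun i => (hρ i).add ?_, ?_⟩
    · exact (SuppIn.oo (P := fun x => x = 0) (by rw [ha1]; rfl)).mul (hσ i)
        (fun x y hx hy => by rw [hx, hy, add_zero])
    · rw [S.der_mul, ha2, hb2, Finset.smul_sum, ← Finset.sum_add_distrib]
      exact Finset.sum_congr rfl fun i _ => by rw [add_smul, mul_smul]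
  | inv a _ ha =>
    obtain ⟨ha1, ρ, hρ, ha2⟩ := ha
    refine ⟨by rw [map_inv, map_inv, ha1, inv_one],
      fun i => -(oo (S.pr a)⁻¹ * ρ i), fun i => SuppIn.neg ?_, ?_⟩
    · exact (SuppIn.oo (P := fun x => x = 0) (by rw [map_inv, ha1]; rfl)).mul (hρ i)
        (fun x y hx hy => by rw [hx, hy, add_zero])
    · rw [S.der_inv, ha2, Finset.smul_sum, ← Finset.sum_neg_distrib]
      exact Finset.sum_congr rfl fun i _ => by rw [neg_smul, mul_smul]

theorem far [UniqueProds Q] (δ : Q →* Multiplicative ℤ) (z : Q)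
    (hz : δ z = Multiplicative.ofAdd 1) (c0 : G) (hc0 : S.pr c0 = 1) (hc1 : c0 ≠ 1) (t : G)
    {ι κ : Type} [Fintype ι] [Fintype κ] (w : ι → G) (hw : ∀ a, δ (S.pr (w a)) = 1)
    (nn : κ → G) (μ : κ → ZG Q) (hμ : ∀ i, SuppIn δ (fun x => x = 0) (μ i))
    (hn1 : ∀ i, S.pr (nn i) = 1) (hn : ∀ i, S.der (nn i) = μ i • S.der t) (T : Finset G) :
    ∃ c : ι → G, (∀ a, S.pr (c a) = 1) ∧ ∀ s ∈ T,
      s ∈ Subgroup.closure (Set.range (Sum.elim (fun a => c a * w a) nn)) →
        ∃ ρ : κ → ZG Q, S.der s = (∑ i, ρ i * μ i) • S.der t := by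
  classical
  obtain ⟨zz, hzz⟩ := S.surj z
  obtain ⟨B, hB⟩ := exists_bound δ
    ((insert c0 (insert t (T ∪ Finset.univ.image w))) ×ˢ (Finset.univ : Finset (Fin r)))
    (fun p => S.der p.1 p.2)
  have hB' : ∀ g ∈ insert c0 (insert t (T ∪ Finset.univ.image w)), ∀ i,
      SuppIn δ (fun a => -(B : ℤ) ≤ a ∧ a ≤ B) (S.der g i) := fun g hg i =>
    hB (g, i) (Finset.mem_product.2 ⟨hg, Finset.mem_univ _⟩)
  let e : ι → ℕ := fun a => 2 * B + 1 + (Fintype.equivFin ι a : ℕ)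
  have he : Function.Injective e := fun a b h => by
    apply (Fintype.equivFin ι).injective
    apply Fin.ext
    simp only [e] at h
    omega
  have hze : ∀ n : ℕ, (δ (z ^ n)).toAdd = n := fun n => by
    rw [map_pow, hz]
    simp
  refine ⟨fun a => zz ^ e a * c0 * (zz ^ e a)⁻¹, fun a => by
    rw [map_mul, map_mul, hc0, mul_one, map_inv, mul_inv_cancel], fun s hs hsH => ?_⟩
  have hc : ∀ a, S.pr (zz ^ e a * c0 * (zz ^ e a)⁻¹) = 1 := fun a => by
    rw [map_mul, map_mul, hc0, mul_one, map_inv, mul_inv_cancel]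
  obtain ⟨-, ρ, hρ, hs2⟩ := inH S δ _ (by
    rintro (a | i)
    · simp only [Sum.elim_inl]
      rw [map_mul, hc, one_mul, hw]
    · simp only [Sum.elim_inr]
      rw [hn1, map_one]) hsH
  rw [Fintype.sum_sum_type] at hs2
  simp only [Sum.elim_inl, Sum.elim_inr] at hs2
  have h1 : ∀ a, S.der (zz ^ e a * c0 * (zz ^ e a)⁻¹ * w a) =
      oo (z ^ e a) • S.der c0 + S.der (w a) := fun a => by
    rw [S.der_mul_ker (hc a), S.der_conj _ hc0, map_pow, hzz]
  simp only [h1, hn, smul_add, Finset.sum_add_distrib, smul_smul] at hs2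
  rw [← Finset.sum_smul, ← Finset.sum_smul] at hs2
  have h2 : (∑ a, ρ (Sum.inl a) * oo (z ^ e a)) • S.der c0 = 0 := by
    funext i
    have h3 : ((∑ a, ρ (Sum.inl a) * oo (z ^ e a)) • S.der c0) i =
        S.der s i - ∑ a, ρ (Sum.inl a) * S.der (w a) i -
          (∑ j, ρ (Sum.inr j) * μ j) * S.der t i := by
      have := congrFun hs2 i
      simp only [Pi.add_apply, Finset.sum_apply, Pi.smul_apply, smul_eq_mul] at this ⊢
      rw [this]
      abel
    refine SuppIn.eq_zero (δ := δ) (P := fun a => (B : ℤ) + 1 ≤ a) (P' := fun a => a ≤ B) ?_ ?_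
      (fun a h1 h2 => by omega)
    · rw [Pi.smul_apply, smul_eq_mul]
      refine SuppIn.mul (P := fun a => 2 * (B : ℤ) + 1 ≤ a) (SuppIn.sum _ fun a _ => ?_)
        (hB' c0 (Finset.mem_insert_self _ _) i) (fun a b ha hb => by omega)
      refine (hρ _).mul (SuppIn.oo (P := fun x => 2 * (B : ℤ) + 1 ≤ x) ?_)
        (fun a b ha hb => by omega)
      rw [hze]
      simp only [e]
      omega
    · rw [h3]
      refine SuppIn.sub (SuppIn.sub ((hB' s (by simp [hs]) i).mono fun a ha => ha.2)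
        (SuppIn.sum _ fun a _ => ?_)) ?_
      · exact (hρ _).mul (hB' (w a) (by simp) i) (fun a b ha hb => by omega)
      · refine SuppIn.mul (P := fun a => a = 0) (SuppIn.sum _ fun j _ => ?_)
          (hB' t (by simp) i) (fun a b ha hb => by omega)
        exact (hρ _).mul (hμ j) (fun a b ha hb => by omega)
  have h4 : ∑ a, ρ (Sum.inl a) * oo (z ^ e a) = 0 :=
    (MS.smul_eq_zero' h2).resolve_right fun h => hc1 (S.inj _ h)
  have h5 : ∀ a, ρ (Sum.inl a) = 0 := fun a => by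
    have h6 := homog_zero (δ := δ) (fun a => ρ (Sum.inl a) * oo (z ^ e a)) (fun a => (e a : ℤ))
      (fun a b h => he (Int.ofNat_inj.1 h))
      (fun a => (hρ _).mul (SuppIn.oo (P := fun x => x = (e a : ℤ)) (hze _))
        (fun x y hx hy => by rw [hx, hy, zero_add])) h4 a
    have h7 : ρ (Sum.inl a) * oo (z ^ e a) * oo (z ^ e a)⁻¹ = 0 := by rw [h6, zero_mul]
    rwa [mul_assoc, oo_mul_inv, mul_one] at h7
  refine ⟨fun j => ρ (Sum.inr j), ?_⟩
  rw [hs2]
  simp [h5]

/-- The derivatives of the elements of `H` lying in the kernel. -/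
def NH (H : Subgroup G) : AddSubgroup (Fin r → ZG Q) where
  carrier := {v | ∃ a ∈ H, S.pr a = 1 ∧ S.der a = v}
  zero_mem' := ⟨1, H.one_mem, map_one _, S.der_one⟩
  add_mem' := by
    rintro _ _ ⟨a, ha, ha1, rfl⟩ ⟨b, hb, hb1, rfl⟩
    exact ⟨a * b, H.mul_mem ha hb, by rw [map_mul, ha1, hb1, mul_one], S.der_mul_ker ha1 b⟩
  neg_mem' := by
    rintro _ ⟨a, ha, ha1, rfl⟩
    exact ⟨a⁻¹, H.inv_mem ha, by rw [map_inv, ha1, inv_one], S.der_inv_ker ha1⟩

theorem mem_NH {H : Subgroup G} {a : G} (ha : a ∈ H) (ha1 : S.pr a = 1) : S.der a ∈ NH S H :=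
  ⟨a, ha, ha1, rfl⟩

theorem NH_smul {H : Subgroup G} {q : Q} (hq : q ∈ H.map S.pr) {v : Fin r → ZG Q}
    (hv : v ∈ NH S H) : oo q • v ∈ NH S H := by
  obtain ⟨h, hh, rfl⟩ := hq
  obtain ⟨a, ha, ha1, rfl⟩ := hv
  exact ⟨h * a * h⁻¹, H.mul_mem (H.mul_mem hh ha) (H.inv_mem hh),
    by rw [map_mul, map_mul, ha1, mul_one, map_inv, mul_inv_cancel], S.der_conj h ha1⟩

theorem mem_of_NH {H : Subgroup G} {y q : G} (hy : S.pr y = 1) (h : S.der q - S.der y ∈ NH S H) :
    y⁻¹ * q ∈ H := by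
  obtain ⟨a, ha, -, e⟩ := h
  have : y⁻¹ * q = a := by
    apply S.der_inj
    rw [S.der_mul_ker (by rw [map_inv, hy, inv_one]), S.der_inv_ker hy, e]
    abel
  rw [this]
  exact ha

theorem NH_span {H : Subgroup G} {ρ : ZG Q} {v : Fin r → ZG Q}
    (h : ∀ x ∈ ρ.coeff.support, oo x • v ∈ NH S H) : ρ • v ∈ NH S H := by
  rw [eq_sum_oo ρ, Finset.sum_smul]
  refine (NH S H).sum_mem fun x hx => ?_
  rw [smul_assoc]
  exact (NH S H).zsmul_mem (h x hx) _

theorem NH_diff {H : Subgroup G} {ρ : ZG Q} {v : Fin r → ZG Q} (f : Q → ZG Q)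
    (h : ∀ x ∈ ρ.coeff.support, (oo x - f x) • v ∈ NH S H) :
    ρ • v - (∑ x ∈ ρ.coeff.support, ρ.coeff x • f x) • v ∈ NH S H := by
  have : ρ • v - (∑ x ∈ ρ.coeff.support, ρ.coeff x • f x) • v =
      ∑ x ∈ ρ.coeff.support, ρ.coeff x • ((oo x - f x) • v) := by
    conv_lhs => rw [eq_sum_oo ρ]
    rw [← eq_sum_oo ρ]
    conv_lhs => lhs; rw [eq_sum_oo ρ]
    rw [← sub_smul, ← Finset.sum_sub_distrib, Finset.sum_smul]
    exact Finset.sum_congr rfl fun x _ => by rw [← smul_sub, smul_assoc]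
  rw [this]
  exact (NH S H).sum_mem fun x hx => (NH S H).zsmul_mem (h x hx) _

end Pool.Agent.H259Z.Rich
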